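import Mathlib
import Pool.Agent.E25B.GoodMod

/-!
# Asymptotic inequalities for the two smoothness levels
-/

namespace Pool.Agent.E25D

open Finset Filter Topology Pool.Agent.E25B

noncomputable section

lemma l2pos : 0 < Real.log 2 := Real.log_pos (by norm_num)

/-- `T j = log (2 ^ (j + 1))` -/
def TT (j : ℕ) : ℝ := Real.log ((2 : ℝ) ^ (j + 1))

/-- smoothness level: `exp (log x / (log log x) ^ e)` with `x = 2 ^ (j + 1)` -/
def zE (e j : ℕ) : ℕ := ⌊Real.exp (TT j / (Real.log (TT j)) ^ e)⌋₊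

lemma TT_eq (j : ℕ) : TT j = ((j : ℝ) + 1) * Real.log 2 := by
  unfold TT
  rw [Real.log_pow]
  push_cast
  ring

lemma TT_pos (j : ℕ) : 0 < TT j := by
  rw [TT_eq]
  have := l2pos
  exact mul_pos (by positivity) this

lemma TT_tendsto : Tendsto TT atTop atTop := by
  have h : Tendsto (fun j : ℕ => ((j : ℝ) + 1) * Real.log 2) atTop atTop :=
    (tendsto_atTop_add_const_right _ _ tendsto_natCast_atTop_atTop).atTop_mul_const l2pos
  exact h.congr fun j => (TT_eq j).symm

lemma logTT_tendsto : Tendsto (fun j => Real.log (TT j)) atTop atTop :=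
  Real.tendsto_log_atTop.comp TT_tendsto

/-- powers of the logarithm are small -/
lemma pow_log_small (e : ℕ) (c : ℝ) (hc : 0 < c) : ∀ᶠ t : ℝ in atTop, (Real.log t) ^ e ≤ c * t := by
  have h := (Real.isLittleO_pow_log_id_atTop (n := e)).bound hc
  filter_upwards [h, eventually_ge_atTop 1] with t ht ht1
  have h1 : 0 ≤ Real.log t ^ e := pow_nonneg (Real.log_nonneg ht1) _
  rw [Real.norm_of_nonneg h1] at ht
  simpa [abs_of_nonneg (show (0 : ℝ) ≤ t by linarith)] using ht

lemma zE_tendsto (e : ℕ) : Tendsto (zE e) atTop atTop := by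
  unfold zE
  refine tendsto_nat_floor_atTop.comp (Real.tendsto_exp_atTop.comp ?_)
  rw [tendsto_atTop]
  intro c
  have h1 : ∀ᶠ t : ℝ in atTop, c ≤ t / (Real.log t) ^ e := by
    filter_upwards [pow_log_small e (1 / (|c| + 1)) (by positivity), eventually_gt_atTop 3] with t ht ht1
    have h2 : 0 < Real.log t := Real.log_pos (by linarith)
    rw [le_div_iff₀ (by positivity)]
    have h3 : c * Real.log t ^ e ≤ |c| * Real.log t ^ e :=
      mul_le_mul_of_nonneg_right (le_abs_self c) (by positivity)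
    have h4 : |c| * Real.log t ^ e ≤ |c| * (1 / (|c| + 1) * t) :=
      mul_le_mul_of_nonneg_left ht (abs_nonneg c)
    have h5 : |c| * (1 / (|c| + 1) * t) ≤ t := by
      have h6 : |c| * (1 / (|c| + 1)) ≤ 1 := by
        rw [mul_one_div, div_le_one (by positivity)]
        linarith
      nlinarith [mul_le_mul_of_nonneg_right h6 (show (0 : ℝ) ≤ t by linarith)]
    linarith
  exact TT_tendsto.eventually h1

/-- the logarithm of the exponent -/
lemma log_bounds : ∀ᶠ j : ℕ in atTop, Real.log ((j : ℝ) + 1) ≤ Real.log (TT j) + 1 ∧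
    ((1300 * wj j * sj j : ℕ) : ℝ) ≤ 10 ^ 8 * (Real.log (TT j)) ^ 2 := by
  filter_upwards [logTT_tendsto.eventually_ge_atTop 100] with j hj
  have hj0 : (0 : ℝ) ≤ j := Nat.cast_nonneg j
  have hT : Real.log (TT j) = Real.log ((j : ℝ) + 1) + Real.log (Real.log 2) := by
    rw [TT_eq, Real.log_mul (by positivity) l2pos.ne']
  have hll : -1 ≤ Real.log (Real.log 2) := by
    rw [Real.le_log_iff_exp_le l2pos]
    have h1 : Real.exp (-1) ≤ 1 / 2 := by
      rw [Real.exp_neg, ← one_div]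
      exact one_div_le_one_div_of_le (by norm_num) (by linarith [Real.exp_one_gt_d9])
    have h2 := Real.log_two_gt_d9
    linarith
  have h1 : Real.log ((j : ℝ) + 1) ≤ Real.log (TT j) + 1 := by linarith
  refine ⟨h1, ?_⟩
  set l := Real.log (TT j) with hl
  have hL : (((Nat.log 2 (j + 3) + 1 : ℕ)) : ℝ) ≤ 3 * l := by
    have h2 : ((Nat.log 2 (j + 3) : ℕ) : ℝ) * Real.log 2 ≤ Real.log ((j : ℝ) + 3) := by
      rw [← Real.log_pow]
      refine Real.log_le_log (by positivity) ?_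
      have := Nat.pow_log_le_self 2 (show j + 3 ≠ 0 by omega)
      exact_mod_cast this
    have h3 : Real.log ((j : ℝ) + 3) ≤ Real.log ((j : ℝ) + 1) + 2 := by
      have h4 : Real.log ((j : ℝ) + 3) ≤ Real.log (((j : ℝ) + 1) * 3) :=
        Real.log_le_log (by positivity) (by linarith)
      rw [Real.log_mul (by positivity) (by norm_num)] at h4
      have h5 : Real.log 3 ≤ 2 := by
        rw [Real.log_le_iff_le_exp (by norm_num)]
        have h6 := Real.add_one_le_exp (2 : ℝ)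
        linarith
      linarith
    have h4 : (2 / 3 : ℝ) ≤ Real.log 2 := by
      have := Real.log_two_gt_d9
      linarith
    have h5 : (0 : ℝ) ≤ ((Nat.log 2 (j + 3) : ℕ) : ℝ) := Nat.cast_nonneg _
    push_cast
    nlinarith
  have hw : wj j = 5 * (Nat.log 2 (j + 3) + 1) := rfl
  have hs : sj j = 1200 * (Nat.log 2 (j + 3) + 1) := rfl
  rw [hw, hs]
  set N : ℕ := Nat.log 2 (j + 3) + 1 with hN
  have h6 : (N : ℝ) ^ 2 ≤ (3 * l) ^ 2 := pow_le_pow_left₀ (Nat.cast_nonneg _) hL 2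
  have h7 : 1300 * (5 * N) * (1200 * N) = 7800000 * N ^ 2 := by ring
  rw [h7]
  rw [Nat.cast_mul, Nat.cast_pow]
  have h8 : (3 * l) ^ 2 = 9 * l ^ 2 := by ring
  rw [h8] at h6
  have h9 : (0 : ℝ) ≤ l ^ 2 := sq_nonneg l
  have h10 : ((7800000 : ℕ) : ℝ) = 7800000 := by norm_num
  rw [h10]
  norm_num
  linarith

lemma log_zE_le (e j : ℕ) (hz : 1 ≤ zE e j) : Real.log (zE e j) ≤ TT j / (Real.log (TT j)) ^ e := by
  rw [Real.log_le_iff_le_exp (by exact_mod_cast hz)]
  exact Nat.floor_le (Real.exp_pos _).le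

/-- from a logarithmic inequality to an inequality of natural numbers -/
lemma far_of_log {m z E j : ℕ} (hm : 0 < m) (hz : 1 ≤ z)
    (h : Real.log m + E * Real.log z + Real.log ((j : ℝ) + 1) + Real.log 2 ≤ TT j) :
    m * (z ^ E * (j + 1)) ≤ 2 ^ j := by
  have hm' : (0 : ℝ) < m := by exact_mod_cast hm
  have hz' : (0 : ℝ) < z := by exact_mod_cast hz
  have h1 : Real.log ((m : ℝ) * ((z : ℝ) ^ E * ((j : ℝ) + 1))) ≤ Real.log ((2 : ℝ) ^ j) := by
    rw [Real.log_mul (by positivity) (by positivity), Real.log_mul (by positivity) (by positivity),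
      Real.log_pow, Real.log_pow]
    rw [TT_eq] at h
    nlinarith
  have h2 := (Real.log_le_log_iff (by positivity) (by positivity)).1 h1
  exact_mod_cast h2

/-- moduli `≤ zE 3 j` are moderate -/
lemma far_W : ∀ᶠ j : ℕ in atTop, ∀ m : ℕ, 0 < m → m ≤ zE 3 j →
    m * ((zE 3 j) ^ (1300 * wj j * sj j) * (j + 1)) ≤ 2 ^ j := by
  filter_upwards [log_bounds, logTT_tendsto.eventually_ge_atTop (10 ^ 10), (zE_tendsto 3).eventually_ge_atTop 1,
    TT_tendsto.eventually (pow_log_small 1 (1 / 8) (by norm_num)), TT_tendsto.eventually_ge_atTop 100]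
    with j hj1 hj2 hj3 hj4 hj5 m hm hmz
  obtain ⟨h1, h2⟩ := hj1
  refine far_of_log hm hj3 ?_
  set l := Real.log (TT j) with hl
  have hl0 : (0 : ℝ) < l := lt_of_lt_of_le (by norm_num) hj2
  have hz := log_zE_le 3 j hj3
  rw [← hl] at hz
  have hzn : 0 ≤ Real.log (zE 3 j) := Real.log_natCast_nonneg _
  have hmz' : Real.log m ≤ Real.log (zE 3 j) :=
    Real.log_le_log (by exact_mod_cast hm) (by exact_mod_cast hmz)
  have h3 : ((1300 * wj j * sj j : ℕ) : ℝ) * Real.log (zE 3 j) ≤ 10 ^ 8 * l ^ 2 * (TT j / l ^ 3) :=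
    mul_le_mul h2 hz hzn (by positivity)
  have h4 : 10 ^ 8 * l ^ 2 * (TT j / l ^ 3) ≤ TT j / 8 := by
    have h5 : 10 ^ 8 * l ^ 2 * (TT j / l ^ 3) = 10 ^ 8 * TT j / l := by
      field_simp
    rw [h5, div_le_div_iff₀ hl0 (by norm_num)]
    nlinarith
  have h5 : TT j / l ^ 3 ≤ TT j / 8 := by
    refine div_le_div_of_nonneg_left (TT_pos j).le (by norm_num) ?_
    have : (8 : ℝ) ≤ l := le_trans (by norm_num) hj2
    nlinarith [sq_nonneg l, mul_pos hl0 hl0]
  have h6 : Real.log 2 ≤ 1 := by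
    have := Real.log_two_lt_d9; linarith
  rw [pow_one] at hj4
  linarith

/-- moduli `≤ x ^ (1 - 1 / log log x)` are moderate for the level `zE 4 j` -/
lemma far_V : ∀ᶠ j : ℕ in atTop, ∀ m : ℕ, 0 < m →
    (m : ℝ) ≤ ((2 : ℝ) ^ (j + 1)) ^ (1 - 1 / Real.log (TT j)) →
    m * ((zE 4 j) ^ (1300 * wj j * sj j) * (j + 1)) ≤ 2 ^ j := by
  filter_upwards [log_bounds, logTT_tendsto.eventually_ge_atTop (10 ^ 10), (zE_tendsto 4).eventually_ge_atTop 1,
    TT_tendsto.eventually (pow_log_small 2 (1 / 8) (by norm_num)), TT_tendsto.eventually_ge_atTop 100]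
    with j hj1 hj2 hj3 hj4 hj5 m hm hmz
  obtain ⟨h1, h2⟩ := hj1
  refine far_of_log hm hj3 ?_
  set l := Real.log (TT j) with hl
  have hl0 : (0 : ℝ) < l := lt_of_lt_of_le (by norm_num) hj2
  have hz := log_zE_le 4 j hj3
  rw [← hl] at hz
  have hzn : 0 ≤ Real.log (zE 4 j) := Real.log_natCast_nonneg _
  have hm' : Real.log m ≤ (1 - 1 / l) * TT j := by
    have h7 := Real.log_le_log (by exact_mod_cast hm) hmz
    rwa [Real.log_rpow (by positivity)] at h7
  have h3 : ((1300 * wj j * sj j : ℕ) : ℝ) * Real.log (zE 4 j) ≤ 10 ^ 8 * l ^ 2 * (TT j / l ^ 4) :=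
    mul_le_mul h2 hz hzn (by positivity)
  have hT := TT_pos j
  have h4 : 10 ^ 8 * l ^ 2 * (TT j / l ^ 4) ≤ TT j / (4 * l) := by
    have h5 : 10 ^ 8 * l ^ 2 * (TT j / l ^ 4) = 10 ^ 8 * TT j / l ^ 2 := by
      field_simp
    rw [h5, div_le_div_iff₀ (by positivity) (by positivity)]
    have h6 : 10 ^ 8 * (4 * l) ≤ l ^ 2 := by nlinarith
    nlinarith
  have h5 : l + 2 ≤ TT j / (4 * l) := by
    rw [le_div_iff₀ (by positivity)]
    nlinarith
  have h6 : Real.log 2 ≤ 1 := by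
    have := Real.log_two_lt_d9; linarith
  have h7 : (1 - 1 / l) * TT j = TT j - 4 * (TT j / (4 * l)) := by
    field_simp
  have h8 : 0 < TT j / (4 * l) := by positivity
  linarith

end

end Pool.Agent.E25D
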