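import Mathlib
import Pool.Agent.E25B.BlockData
import Pool.Agent.E25B.Core

/-!
# Tame moduli at scale `j` for an arbitrary smoothness level, and the bound for one block
-/

namespace Pool.Agent.E25D

open Finset Filter Topology Pool.Agent.E25 Pool.Agent.E25B
open scoped Classical

noncomputable section

/-- `m` is tame at the block `(2^j, 2^(j+1)]` for the number `k` and the smoothness level `z`. -/
structure Tame (k z j m : ℕ) : Prop where
  few : #{p ∈ m.primeFactors | z < p} ≤ k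
  pow : ∀ p, p.Prime → 2 ≤ m.factorization p → p ^ m.factorization p ≤ z
  om : #m.primeFactors ≤ wj j
  far : m * (z ^ (1300 * wj j * sj j) * (j + 1)) ≤ 2 ^ j

lemma Tame.le {k z j m : ℕ} (hz : 1 ≤ z) (h : Tame k z j m) : m ≤ 2 ^ j := by
  have h1 := h.far
  have h2 : 0 < z ^ (1300 * wj j * sj j) * (j + 1) := Nat.mul_pos (Nat.pow_pos hz) (by omega)
  exact (Nat.le_mul_of_pos_right _ h2).trans h1

theorem block_data_gen (k h : ℕ) (z : ℕ → ℕ) (hz : Tendsto z atTop atTop) (n b : ℕ → ℕ)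
    (hmono : StrictMono n) (hpos : ∀ i, 0 < n i) :
    ∃ j0 : ℕ, ∀ j ≥ j0, ∀ I : Finset ℕ, (∀ t ∈ I, Tame k (z j) j (n t)) →
      2 ≤ z j ∧ ∃ D : Data, D.n = n ∧ D.b = b ∧ D.I = I ∧ D.h = h ∧ D.k = k ∧ D.w = wj j ∧ D.z = z j := by
  obtain ⟨j1, hj1⟩ := eventually_atTop.1 (hz.eventually_ge_atTop (n h + 2))
  obtain ⟨j2, hj2⟩ := wj_large (n h)
  refine ⟨max j1 j2, fun j hj I hI => ?_⟩
  have hz := hj1 j ((le_max_left _ _).trans hj)
  have hw := hj2 j ((le_max_right _ _).trans hj)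
  have hle : ∀ i < h, n i ≤ n h := fun i hi => (hmono hi).le
  refine ⟨by omega, ?_⟩
  refine mkData n b I h k (wj j) (z j) (2 ^ j) (by omega) (one_le_wj j) hpos
    hmono.injective (fun t ht => (hI t ht).le (by omega)) ?_ ?_ ?_ ?_ ?_ ?_
  · intro t ht p hp hpz
    rcases Nat.lt_or_ge ((n t).factorization p) 2 with h2 | h2
    · rcases Nat.lt_or_ge ((n t).factorization p) 1 with h3 | h3
      · have h4 : (n t).factorization p = 0 := by omega
        rw [h4, pow_zero]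
        omega
      · have h4 : (n t).factorization p = 1 := by omega
        rw [h4, pow_one]
        exact hpz
    · exact (hI t ht).pow p hp h2
  · intro t ht p hp hpz
    by_contra h2
    have h3 := (hI t ht).pow p hp (by omega)
    have h4 : p ≤ p ^ (n t).factorization p := Nat.le_self_pow (by omega) p
    omega
  · intro t ht
    exact (hI t ht).om
  · intro t ht
    exact (hI t ht).few
  · intro i hi
    have := hle i hi
    omega
  · intro i hi
    have h2 : #(n i).primeFactors ≤ n i := by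
      have h3 : (n i).primeFactors ⊆ Icc 1 (n i) := by
        intro p hp
        have hp' := Nat.mem_primeFactors.1 hp
        exact mem_Icc.2 ⟨hp'.1.one_le, Nat.le_of_dvd (hpos i) hp'.2.1⟩
      have h4 := card_le_card h3
      rw [Nat.card_Icc] at h4
      omega
    exact (h2.trans (hle i hi)).trans hw

/-- the number of moduli times the cut-off -/
private lemma card_mul_cut_le {n : ℕ → ℕ} (hinj : Function.Injective n) (hpos : ∀ i, 0 < n i)
    {c Y : ℕ} (hc : 0 < c) {I : Finset ℕ} (hI : ∀ t ∈ I, n t * c ≤ Y) : #I * c ≤ Y := by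
  have h1 : #I ≤ Y / c := by
    have h2 : #(I.image n) ≤ #(Icc 1 (Y / c)) := by
      refine card_le_card fun m hm => ?_
      obtain ⟨t, ht, rfl⟩ := mem_image.1 hm
      exact mem_Icc.2 ⟨hpos t, (Nat.le_div_iff_mul_le hc).2 (hI t ht)⟩
    rwa [card_image_of_injective _ hinj, Nat.card_Icc, Nat.add_sub_cancel] at h2
  exact (Nat.mul_le_mul_right c h1).trans (Nat.div_mul_le_self Y c)

/-- the size of the main error term -/
private lemma err_aux (j : ℕ) :
    (10 : ℝ) ^ (3 * wj j) / 2 ^ (sj j) * (2 * (1 + 10 * Real.log ((2 ^ (j + 1) : ℕ) : ℝ)) ^ 1024)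
      ≤ 2 * 10 ^ 1024 / (j + 3) := by
  set L := Nat.log 2 (j + 3) + 1 with hL
  have hw : wj j = 5 * L := rfl
  have hs : sj j = 1200 * L := rfl
  have hX : ((j : ℝ) + 3) ≤ 2 ^ L := by
    have := (Nat.lt_pow_succ_log_self (b := 2) (by norm_num) (j + 3)).le
    exact_mod_cast this
  have hX0 : (0 : ℝ) < (j : ℝ) + 3 := by positivity
  have hX1 : (1 : ℝ) ≤ (j : ℝ) + 3 := by linarith [(Nat.cast_nonneg j : (0 : ℝ) ≤ j)]
  -- the geometric factor
  have h1 : (10 : ℝ) ^ (3 * wj j) / 2 ^ (sj j) ≤ 1 / ((j : ℝ) + 3) ^ 1025 := by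
    rw [div_le_div_iff₀ (by positivity) (by positivity), one_mul, hw, hs]
    have h2 : (10 : ℝ) ^ (3 * (5 * L)) ≤ 2 ^ (60 * L) := by
      calc (10 : ℝ) ^ (3 * (5 * L)) ≤ 16 ^ (3 * (5 * L)) :=
            pow_le_pow_left₀ (by norm_num) (by norm_num) _
        _ = 2 ^ (60 * L) := by
            rw [show (16 : ℝ) = 2 ^ 4 by norm_num, ← pow_mul,
              show 4 * (3 * (5 * L)) = 60 * L by omega]
    have h3 : ((j : ℝ) + 3) ^ 1025 ≤ 2 ^ (1025 * L) := by
      calc ((j : ℝ) + 3) ^ 1025 ≤ (2 ^ L) ^ 1025 := pow_le_pow_left₀ hX0.le hX _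
        _ = 2 ^ (1025 * L) := by rw [← pow_mul, mul_comm L]
    calc (10 : ℝ) ^ (3 * (5 * L)) * ((j : ℝ) + 3) ^ 1025 ≤ 2 ^ (60 * L) * 2 ^ (1025 * L) :=
          mul_le_mul h2 h3 (by positivity) (by positivity)
      _ = 2 ^ (1085 * L) := by rw [← pow_add, show 60 * L + 1025 * L = 1085 * L by omega]
      _ ≤ 2 ^ (1200 * L) := pow_le_pow_right₀ (by norm_num) (by omega)
  -- the logarithmic factor
  have h4 : (1 + 10 * Real.log ((2 ^ (j + 1) : ℕ) : ℝ)) ≤ 10 * ((j : ℝ) + 3) := by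
    push_cast
    rw [Real.log_pow]
    have h5 : Real.log 2 ≤ 1 := by
      have := Real.log_two_lt_d9; linarith
    have h6 : ((j + 1 : ℕ) : ℝ) * Real.log 2 ≤ ((j + 1 : ℕ) : ℝ) * 1 :=
      mul_le_mul_of_nonneg_left h5 (Nat.cast_nonneg _)
    push_cast at h6 ⊢
    linarith
  have h7 : 0 ≤ 1 + 10 * Real.log ((2 ^ (j + 1) : ℕ) : ℝ) := by
    have : 0 ≤ Real.log ((2 ^ (j + 1) : ℕ) : ℝ) := Real.log_natCast_nonneg _
    linarith
  have h8 := pow_le_pow_left₀ h7 h4 1024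
  calc (10 : ℝ) ^ (3 * wj j) / 2 ^ (sj j) *
        (2 * (1 + 10 * Real.log ((2 ^ (j + 1) : ℕ) : ℝ)) ^ 1024)
      ≤ 1 / ((j : ℝ) + 3) ^ 1025 * (2 * (10 * ((j : ℝ) + 3)) ^ 1024) :=
        mul_le_mul h1 (mul_le_mul_of_nonneg_left h8 (by norm_num)) (by positivity) (by positivity)
    _ = 2 * 10 ^ 1024 / (j + 3) := by
        rw [mul_pow, pow_succ ((j : ℝ) + 3) 1024]
        generalize (10 : ℝ) ^ 1024 = K
        have : ((j : ℝ) + 3) ^ 1024 ≠ 0 := by positivity
        generalize ((j : ℝ) + 3) ^ 1024 = M at this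
        field_simp

private lemma exists_err : ∃ K : ℝ, ∀ j : ℕ,
    (10 : ℝ) ^ (3 * wj j) / 2 ^ (sj j) * (2 * (1 + 10 * Real.log ((2 ^ (j + 1) : ℕ) : ℝ)) ^ 1024)
      ≤ K / ((j : ℝ) + 3) := ⟨_, err_aux⟩

/-- For every `h` the tame moduli cover at most `Cb k * (δ_∞ - δ_h + o(1))` of the block outside the
first `h` classes. -/
theorem block_bound_gen (k h : ℕ) (z : ℕ → ℕ) (hz : Tendsto z atTop atTop) (n b : ℕ → ℕ)
    (hmono : StrictMono n) (hpos : ∀ i, 0 < n i) :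
    ∃ err : ℕ → ℝ, Tendsto err atTop (𝓝 0) ∧ ∀ᶠ j in atTop, ∀ I : Finset ℕ,
      (∀ t ∈ I, Tame k (z j) j (n t)) →
      (#{m ∈ Ioc (2 ^ j) (2 ^ (j + 1)) | Hit n b I m ∧ ¬ Hit n b (range h) m} : ℝ)
        ≤ 2 ^ j * (Cb k * (densInf n b - dens n b (range h)) + err j) := by
  obtain ⟨j0, hj0⟩ := block_data_gen k h z hz n b hmono hpos
  have hCb : 0 < Cb k := by unfold Cb; positivity
  obtain ⟨K, hK⟩ := exists_err
  refine ⟨fun j => Cb k * ((8 ^ k * 4 ^ 10 * (1 + h : ℝ) ^ 9) * (K / ((j : ℝ) + 3)) +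
    2 * 8 ^ k / ((j : ℝ) + 1)), ?_, ?_⟩
  · have ht : ∀ (a c : ℝ), Tendsto (fun j : ℕ => a / ((j : ℝ) + c)) atTop (𝓝 0) := fun a c =>
      tendsto_const_nhds.div_atTop (tendsto_atTop_add_const_right _ _ tendsto_natCast_atTop_atTop)
    have h2 := (((ht K 3).const_mul (8 ^ k * 4 ^ 10 * (1 + h : ℝ) ^ 9)).add
      (ht (2 * 8 ^ k) 1)).const_mul (Cb k)
    rw [mul_zero, add_zero, mul_zero] at h2
    exact h2
  · filter_upwards [eventually_ge_atTop j0] with j hj I hI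
    obtain ⟨hz2, D, hn, hb, hIe, hh, hk, hw, hz'⟩ := hj0 j hj I hI
    set c : ℕ := z j ^ (1300 * wj j * sj j) * (j + 1) with hc0
    have hcut : 0 < c := Nat.mul_pos (Nat.pow_pos (by omega)) (by omega)
    have hle : ∀ t ∈ I, n t ≤ 2 ^ (j + 1) := fun t ht =>
      ((hI t ht).le (by omega)).trans (Nat.pow_le_pow_right (by norm_num) (by omega))
    have hc := core D (sj j) (by unfold sj; omega) (2 ^ j)
    rw [hn, hb, hIe, hh, hk, hw, hz'] at hc
    rw [show (2 : ℕ) ^ (j + 1) = 2 * 2 ^ j by rw [pow_succ']]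
    refine hc.trans ?_
    -- the three terms
    have hdens : dens n b (range h ∪ I) ≤ densInf n b := by
      obtain ⟨N, hN⟩ := (range h ∪ I).exists_nat_subset_range
      exact (dens_mono hpos hN).trans (dens_le_inf hpos N)
    have hMom := Mom_le n I (hmono.injective.injOn) (fun t _ => hpos t) (2 ^ (j + 1))
      Nat.one_le_two_pow hle
    have hcard : (#I : ℝ) * (z j : ℝ) ^ (1300 * wj j * sj j) ≤ 2 ^ j / ((j : ℝ) + 1) := by
      have h2 := card_mul_cut_le hmono.injective hpos hcut fun t ht => (hI t ht).far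
      rw [le_div_iff₀ (by positivity)]
      rw [hc0, ← mul_assoc] at h2
      exact_mod_cast h2
    have herr := hK j
    have hpj : (0 : ℝ) < 2 ^ j := by positivity
    have hA : (0 : ℝ) ≤ 8 ^ k * 4 ^ 10 * (1 + h : ℝ) ^ 9 := by positivity
    have hT2 : (8 ^ k * 4 ^ 10 * (1 + h : ℝ) ^ 9 * (10 ^ (3 * wj j) / 2 ^ sj j)) * Mom n I ≤
        8 ^ k * 4 ^ 10 * (1 + h : ℝ) ^ 9 * (K / ((j : ℝ) + 3)) := by
      rw [mul_assoc]
      refine mul_le_mul_of_nonneg_left ?_ hA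
      exact (mul_le_mul_of_nonneg_left hMom (by positivity)).trans herr
    have hT3 : 2 * 8 ^ k * (#I : ℝ) * (z j : ℝ) ^ (1300 * wj j * sj j) ≤
        2 ^ j * (2 * 8 ^ k / ((j : ℝ) + 1)) := by
      calc 2 * 8 ^ k * (#I : ℝ) * (z j : ℝ) ^ (1300 * wj j * sj j)
          = 2 * 8 ^ k * ((#I : ℝ) * (z j : ℝ) ^ (1300 * wj j * sj j)) := by ring
        _ ≤ 2 * 8 ^ k * (2 ^ j / ((j : ℝ) + 1)) := mul_le_mul_of_nonneg_left hcard (by positivity)
        _ = 2 ^ j * (2 * 8 ^ k / ((j : ℝ) + 1)) := by ring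
    have hT1 : (2 : ℝ) ^ j * (dens n b (range h ∪ I) - dens n b (range h)) ≤
        2 ^ j * (densInf n b - dens n b (range h)) :=
      mul_le_mul_of_nonneg_left (by linarith) hpj.le
    have hT2' := mul_le_mul_of_nonneg_left hT2 hpj.le
    rw [← mul_assoc] at hT2'
    push_cast
    calc Cb k * (2 ^ j * (dens n b (range h ∪ I) - dens n b (range h))
          + 2 ^ j * (8 ^ k * 4 ^ 10 * (1 + h : ℝ) ^ 9 * (10 ^ (3 * wj j) / 2 ^ sj j)) * Mom n I
          + 2 * 8 ^ k * (#I : ℝ) * (z j : ℝ) ^ (1300 * wj j * sj j))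
        ≤ Cb k * (2 ^ j * (densInf n b - dens n b (range h))
          + 2 ^ j * (8 ^ k * 4 ^ 10 * (1 + h : ℝ) ^ 9 * (K / ((j : ℝ) + 3)))
          + 2 ^ j * (2 * 8 ^ k / ((j : ℝ) + 1))) :=
          mul_le_mul_of_nonneg_left (add_le_add (add_le_add hT1 hT2') hT3) hCb.le
      _ = _ := by ring

end

end Pool.Agent.E25D
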