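import Mathlib
import Pool.Agent.E25.Count
import Pool.Agent.E25.LogDens
import Pool.Agent.E25B.Final
import Pool.Agent.E25D.Gen

/-!
# A criterion for the existence of the natural (logarithmic) density
-/

namespace Pool.Agent.E25D

open Finset Filter Topology Pool.Agent.E25 Pool.Agent.E25B
open scoped Classical

noncomputable section

/-- The coarse classes of the moduli that are not tame at block `j`, counted with `1 / modulus`. -/
def bad (T : ℕ) (k : ℕ → ℕ) (z : ℕ → ℕ → ℕ) (n b : ℕ → ℕ) (X : Set ℕ) (r : ℕ → ℕ) (j : ℕ) : ℝ :=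
  ∑ c ∈ ({i ∈ range (2 ^ (j + 1) + 1) | i ∉ X ∧ n i ≤ 2 ^ (j + 1) ∧
    ∀ τ < T, ¬ Tame (k τ) (z τ j) j (n i)} : Finset ℕ).image (fun i => (r i, b i % r i)), (1 : ℝ) / c.1

lemma bad_nonneg (T : ℕ) (k : ℕ → ℕ) (z : ℕ → ℕ → ℕ) (n b : ℕ → ℕ) (X : Set ℕ) (r : ℕ → ℕ) (j : ℕ) :
    0 ≤ bad T k z n b X r j := sum_nonneg fun _ _ => by positivity

lemma block_class (q c j : ℕ) (hq : 0 < q) (hqx : q ≤ 2 ^ (j + 1)) :
    (#{m ∈ Ioc (2 ^ j) (2 ^ (j + 1)) | m % q = c % q} : ℝ) ≤ 2 ^ j * (4 * (1 / q)) := by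
  have h1 : #{m ∈ Ioc (2 ^ j) (2 ^ (j + 1)) | m % q = c % q}
      ≤ #{m ∈ Icc 1 (2 ^ (j + 1)) | m % q = c % q} := by
    refine card_le_card (filter_subset_filter _ fun m hm => ?_)
    rw [mem_Ioc] at hm
    rw [mem_Icc]
    omega
  have h2 := class_count' q c (2 ^ (j + 1)) hq hqx
  have h3 : (#{m ∈ Ioc (2 ^ j) (2 ^ (j + 1)) | m % q = c % q} : ℝ)
      ≤ (#{m ∈ Icc 1 (2 ^ (j + 1)) | m % q = c % q} : ℝ) := by exact_mod_cast h1
  refine h3.trans (h2.trans (le_of_eq ?_))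
  push_cast
  ring

theorem tail_block (T : ℕ) (k : ℕ → ℕ) (z : ℕ → ℕ → ℕ) (hz : ∀ τ < T, Tendsto (z τ) atTop atTop)
    (n b : ℕ → ℕ) (hmono : StrictMono n) (hpos : ∀ i, 0 < n i) (X : Set ℕ)
    (hX : Summable (X.indicator fun i => (1 : ℝ) / n i)) (r : ℕ → ℕ)
    (hr : ∀ i, i ∉ X → r i ∣ n i) (ε : ℝ) (hε : 0 < ε) :
    ∃ h0 : ℕ, ∀ h ≥ h0, ∀ᶠ j in atTop,
      (#{m ∈ Ioc (2 ^ j) (2 ^ (j + 1)) |
          (∃ i, n i ≤ m ∧ m % n i = b i % n i) ∧ ¬ Hit n b (range h) m} : ℝ)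
        ≤ 2 ^ j * (ε + 4 * bad T k z n b X r j) := by
  have hid : ∀ i, i ≤ n i := fun i => hmono.le_apply
  set S : ℝ := ∑ τ ∈ range T, Cb (k τ) with hS
  obtain ⟨H1, hH1⟩ : ∃ H1 : ℕ, ∀ h ≥ H1, S * (densInf n b - dens n b (range h)) < ε / 4 := by
    have h2 : Tendsto (fun h : ℕ => S * (densInf n b - dens n b (range h))) atTop (𝓝 0) := by
      have h3 := ((dens_tendsto (n := n) (b := b) hpos).const_sub (densInf n b)).const_mul S
      rwa [sub_self, mul_zero] at h3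
    exact eventually_atTop.mp (h2.eventually_lt_const (by positivity))
  obtain ⟨H2, hH2⟩ : ∃ H2 : ℕ, ∀ s : Finset ℕ, (∀ i ∈ s, i ∈ X ∧ H2 ≤ i) →
      ∑ i ∈ s, (1 : ℝ) / n i ≤ ε / 16 := by
    obtain ⟨s, hs⟩ := summable_iff_vanishing_norm.mp hX (ε / 16) (by positivity)
    obtain ⟨N, hN⟩ : ∃ N, s ⊆ range N := s.exists_nat_subset_range
    refine ⟨N, fun t ht => ?_⟩
    have h3 := hs t (by
      rw [Finset.disjoint_left]
      intro i hi his
      have h4 := (ht i hi).2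
      have h5 := mem_range.mp (hN his)
      omega)
    have h4 : ∑ i ∈ t, (1 : ℝ) / n i = ∑ i ∈ t, X.indicator (fun i => (1 : ℝ) / n i) i := by
      refine sum_congr rfl fun i hi => ?_
      rw [Set.indicator_of_mem (ht i hi).1]
    rw [h4]
    exact (le_abs_self _).trans h3.le
  refine ⟨max H1 H2, fun h hh => ?_⟩
  have hhH1 := hH1 h (le_trans (le_max_left _ _) hh)
  have hhH2 : H2 ≤ h := le_trans (le_max_right _ _) hh
  have hblock : ∀ τ ∈ range T, ∀ᶠ j in atTop, ∀ I : Finset ℕ, (∀ t ∈ I, Tame (k τ) (z τ j) j (n t)) →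
      (#{m ∈ Ioc (2 ^ j) (2 ^ (j + 1)) | Hit n b I m ∧ ¬ Hit n b (range h) m} : ℝ)
        ≤ 2 ^ j * (Cb (k τ) * (densInf n b - dens n b (range h)) + ε / (4 * (T + 1))) := by
    intro τ hτ
    obtain ⟨err, herr, hb⟩ := block_bound_gen (k τ) h (z τ) (hz τ (mem_range.mp hτ)) n b hmono hpos
    filter_upwards [hb, herr.eventually_lt_const (show (0 : ℝ) < ε / (4 * (T + 1)) by positivity)]
      with j hj1 hj2 I hI
    refine (hj1 I hI).trans (mul_le_mul_of_nonneg_left ?_ (by positivity))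
    linarith
  have hall := (eventually_all_finset (range T)).2 hblock
  filter_upwards [hall, eventually_ge_atTop 1] with j hj hj1
  set Y : ℕ := 2 ^ (j + 1) with hY
  set B : Finset ℕ := {i ∈ range (Y + 1) | i ∉ X ∧ n i ≤ Y ∧ ∀ τ < T, ¬ Tame (k τ) (z τ j) j (n i)} with hB
  set Bc : Finset (ℕ × ℕ) := B.image (fun i => (r i, b i % r i)) with hBc
  have hbad : bad T k z n b X r j = ∑ c ∈ Bc, (1 : ℝ) / c.1 := rfl
  set S1 : Finset ℕ := {i ∈ range (Y + 1) | (i ∈ X ∧ h ≤ i) ∧ n i ≤ Y} with hS1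
  obtain ⟨I, hI⟩ : ∃ I : ℕ → Finset ℕ, ∀ τ i, i ∈ I τ ↔ i < Y + 1 ∧ Tame (k τ) (z τ j) j (n i) :=
    ⟨fun τ => {i ∈ range (Y + 1) | Tame (k τ) (z τ j) j (n i)}, fun τ i => by
      rw [mem_filter, mem_range]⟩
  set A1 : Finset ℕ := S1.biUnion fun i => {m ∈ Ioc (2 ^ j) Y | m % n i = b i % n i} with hA1
  set A2 : Finset ℕ := (range T).biUnion fun τ =>
    {m ∈ Ioc (2 ^ j) Y | Hit n b (I τ) m ∧ ¬ Hit n b (range h) m} with hA2
  set A3 : Finset ℕ := Bc.biUnion fun c => {m ∈ Ioc (2 ^ j) Y | m % c.1 = c.2 % c.1} with hA3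
  have hsub : ({m ∈ Ioc (2 ^ j) Y | (∃ i, n i ≤ m ∧ m % n i = b i % n i) ∧ ¬ Hit n b (range h) m} : Finset ℕ)
      ⊆ A1 ∪ (A2 ∪ A3) := by
    intro m hm
    rw [mem_filter] at hm
    obtain ⟨hmI, ⟨i, him, hmi⟩, hnh⟩ := hm
    rw [mem_union, mem_union]
    have hmY : m ≤ Y := (mem_Ioc.mp hmI).2
    have hiY : n i ≤ Y := him.trans hmY
    have hi' := hid i
    by_cases hiX : i ∈ X
    · left
      rw [hA1, mem_biUnion]
      refine ⟨i, ?_, ?_⟩
      · rw [hS1, mem_filter, mem_range]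
        refine ⟨by omega, ⟨hiX, ?_⟩, hiY⟩
        by_contra hcon
        exact hnh ⟨i, mem_range.mpr (by omega), hmi⟩
      · rw [mem_filter]
        exact ⟨hmI, hmi⟩
    right
    by_cases ht : ∃ τ < T, Tame (k τ) (z τ j) j (n i)
    · left
      obtain ⟨τ, hτ, ht⟩ := ht
      rw [hA2, mem_biUnion]
      refine ⟨τ, mem_range.mpr hτ, ?_⟩
      rw [mem_filter]
      exact ⟨hmI, ⟨i, (hI τ i).2 ⟨by omega, ht⟩, hmi⟩, hnh⟩
    · right
      push Not at ht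
      rw [hA3, mem_biUnion]
      refine ⟨(r i, b i % r i), ?_, ?_⟩
      · rw [hBc, mem_image]
        refine ⟨i, ?_, rfl⟩
        rw [hB, mem_filter, mem_range]
        exact ⟨by omega, hiX, hiY, ht⟩
      · rw [mem_filter]
        refine ⟨hmI, ?_⟩
        show m % r i = b i % r i % r i
        rw [Nat.mod_mod]
        exact Nat.ModEq.of_dvd (hr i hiX) hmi
  have hcardn : #{m ∈ Ioc (2 ^ j) Y | (∃ i, n i ≤ m ∧ m % n i = b i % n i) ∧ ¬ Hit n b (range h) m}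
      ≤ #A1 + (#A2 + #A3) :=
    (card_le_card hsub).trans ((card_union_le _ _).trans
      (Nat.add_le_add_left (card_union_le _ _) _))
  have hcard : (#{m ∈ Ioc (2 ^ j) Y | (∃ i, n i ≤ m ∧ m % n i = b i % n i) ∧ ¬ Hit n b (range h) m} : ℝ)
      ≤ (#A1 : ℝ) + ((#A2 : ℝ) + (#A3 : ℝ)) := by exact_mod_cast hcardn
  have hbi : ∀ {α : Type} (s : Finset α) (f : α → Finset ℕ),
      (#(s.biUnion f) : ℝ) ≤ ∑ a ∈ s, (#(f a) : ℝ) := by
    intro α s f
    exact_mod_cast (card_biUnion_le (s := s) (t := f))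
  have hpj : (0 : ℝ) < 2 ^ j := by positivity
  have hp1 : (#A1 : ℝ) ≤ 2 ^ j * (4 * (ε / 16)) := by
    refine (hbi _ _).trans ?_
    have h2 : ∀ i ∈ S1, (#{m ∈ Ioc (2 ^ j) Y | m % n i = b i % n i} : ℝ) ≤ 2 ^ j * (4 * (1 / n i)) := by
      intro i hi
      rw [hS1, mem_filter] at hi
      exact block_class (n i) (b i) j (hpos i) hi.2.2
    refine (sum_le_sum h2).trans ?_
    rw [← mul_sum, ← mul_sum]
    refine mul_le_mul_of_nonneg_left (mul_le_mul_of_nonneg_left ?_ (by norm_num)) hpj.le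
    refine hH2 S1 fun i hi => ?_
    rw [hS1, mem_filter] at hi
    exact ⟨hi.2.1.1, hhH2.trans hi.2.1.2⟩
  have hp2 : (#A2 : ℝ) ≤ 2 ^ j * (ε / 4 + ε / 4) := by
    refine (hbi _ _).trans ?_
    have h2 : ∀ τ ∈ range T, (#{m ∈ Ioc (2 ^ j) Y | Hit n b (I τ) m ∧ ¬ Hit n b (range h) m} : ℝ)
        ≤ 2 ^ j * (Cb (k τ) * (densInf n b - dens n b (range h)) + ε / (4 * (T + 1))) := by
      intro τ hτ
      exact hj τ hτ (I τ) fun t ht => ((hI τ t).1 ht).2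
    refine (sum_le_sum h2).trans ?_
    rw [← mul_sum]
    refine mul_le_mul_of_nonneg_left ?_ hpj.le
    rw [sum_add_distrib, ← sum_mul, ← hS, sum_const, card_range, nsmul_eq_mul]
    have h3 : (T : ℝ) * (ε / (4 * (T + 1))) ≤ ε / 4 := by
      have hT : (0 : ℝ) ≤ T := Nat.cast_nonneg _
      rw [mul_div_assoc', div_le_div_iff₀ (by positivity) (by norm_num)]
      nlinarith
    linarith
  have hp3 : (#A3 : ℝ) ≤ 2 ^ j * (4 * bad T k z n b X r j) := by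
    refine (hbi _ _).trans ?_
    rw [hbad, mul_sum, mul_sum]
    refine sum_le_sum fun c hc => ?_
    rw [hBc, mem_image] at hc
    obtain ⟨i, hi, rfl⟩ := hc
    rw [hB, mem_filter] at hi
    have hdvd := hr i hi.2.1
    have h4 : 0 < r i := Nat.pos_of_dvd_of_pos hdvd (hpos i)
    exact block_class (r i) (b i % r i) j h4 ((Nat.le_of_dvd (hpos i) hdvd).trans hi.2.2.1)
  have e : 2 ^ j * (ε + 4 * bad T k z n b X r j)
      = 2 ^ j * (4 * (ε / 16)) + (2 ^ j * (ε / 4 + ε / 4) + 2 ^ j * (4 * bad T k z n b X r j))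
        + 2 ^ j * (ε / 4) := by ring
  rw [e]
  have h5 : 0 ≤ 2 ^ j * (ε / 4) := by positivity
  linarith

end

end Pool.Agent.E25D
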