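import Mathlib
import Pool.Agent.E25D.Crit

/-!
# Natural and logarithmic density from the criterion
-/

namespace Pool.Agent.E25D

open Finset Filter Topology Pool.Agent.E25 Pool.Agent.E25B
open scoped Classical

noncomputable section

/-- **Criterion for natural density.** -/
theorem natdens_crit (T : ℕ) (k : ℕ → ℕ) (z : ℕ → ℕ → ℕ) (hz : ∀ τ < T, Tendsto (z τ) atTop atTop)
    (n b : ℕ → ℕ) (hmono : StrictMono n) (hpos : ∀ i, 0 < n i) (X : Set ℕ)
    (hX : Summable (X.indicator fun i => (1 : ℝ) / n i)) (r : ℕ → ℕ)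
    (hr : ∀ i, i ∉ X → r i ∣ n i)
    (hbad : Tendsto (bad T k z n b X r) atTop (𝓝 0)) :
    Tendsto (fun x : ℕ => (#{m ∈ Icc 1 x | ∃ i, n i ≤ m ∧ m % n i = b i % n i} : ℝ) / x) atTop
      (𝓝 (densInf n b)) := by
  set S : ℕ → ℝ := fun x => (#{m ∈ Icc 1 x | ∃ i, n i ≤ m ∧ m % n i = b i % n i} : ℝ) with hS
  have hR := fun h : ℕ => hit_range_natdens n b hpos h
  rw [tendsto_order]
  constructor
  · intro a ha
    obtain ⟨h, hh⟩ := ((dens_tendsto (n := n) (b := b) hpos).eventually (lt_mem_nhds ha)).exists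
    set P : ℕ := ∏ i ∈ range h, n i with hP
    have hPpos : 0 < P := prod_pos fun i _ => hpos i
    have hlim : Tendsto (fun x : ℕ => (#{m ∈ Icc 1 x | Hit n b (range h) m} : ℝ) / x - (P : ℝ) / x)
        atTop (𝓝 (dens n b (range h) - 0)) :=
      (hR h).sub (tendsto_const_nhds.div_atTop tendsto_natCast_atTop_atTop)
    rw [sub_zero] at hlim
    filter_upwards [hlim.eventually (lt_mem_nhds hh), eventually_gt_atTop 0] with x hx hx0
    refine hx.trans_le ?_
    have hx0' : (0 : ℝ) < x := by exact_mod_cast hx0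
    rw [← sub_div]
    refine div_le_div_of_nonneg_right ?_ hx0'.le
    rw [sub_le_iff_le_add]
    have h2 : #{m ∈ Icc 1 x | Hit n b (range h) m}
        ≤ #{m ∈ Icc 1 x | ∃ i, n i ≤ m ∧ m % n i = b i % n i} + P := by
      have h3 : #{m ∈ Icc 1 x | Hit n b (range h) m}
          ≤ #({m ∈ Icc 1 x | ∃ i, n i ≤ m ∧ m % n i = b i % n i} ∪ Icc 1 P) := by
        refine card_le_card fun m hm => ?_
        rw [mem_filter] at hm
        obtain ⟨hm1, i, hi, hm2⟩ := hm
        rw [mem_union]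
        by_cases hmP : m ≤ P
        · right; exact mem_Icc.mpr ⟨(mem_Icc.mp hm1).1, hmP⟩
        · left
          refine mem_filter.mpr ⟨hm1, i, ?_, hm2⟩
          have : n i ≤ P := Nat.le_of_dvd hPpos (dvd_prod_of_mem n hi)
          omega
      refine h3.trans ((card_union_le _ _).trans ?_)
      rw [Nat.card_Icc, Nat.add_sub_cancel]
    exact_mod_cast h2
  · intro a ha
    set δ : ℝ := (a - densInf n b) / 4 with hδ
    have hδ0 : 0 < δ := by rw [hδ]; linarith
    obtain ⟨h, hh⟩ := tail_block T k z hz n b hmono hpos X hX r hr (δ / 8) (by positivity)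
    have htail := hh h le_rfl
    have hev := htail.and (hbad.eventually_lt_const (show (0 : ℝ) < δ / 32 by positivity))
    obtain ⟨J, hJ⟩ := eventually_atTop.mp hev
    have hJb : ∀ j ≥ J, (#{m ∈ Ioc (2 ^ j) (2 ^ (j + 1)) |
          (∃ i, n i ≤ m ∧ m % n i = b i % n i) ∧ ¬ Hit n b (range h) m} : ℝ) ≤ 2 ^ j * (δ / 4) := by
      intro j hj
      obtain ⟨h1, h2⟩ := hJ j hj
      refine h1.trans (mul_le_mul_of_nonneg_left ?_ (by positivity))
      linarith
    have hd := dens_le_inf (b := b) hpos h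
    have hlt : dens n b (range h) < a - 3 * δ := by
      have : a - 3 * δ = densInf n b + δ := by rw [hδ]; ring
      linarith
    have hJx : Tendsto (fun x : ℕ => ((2 ^ J : ℕ) : ℝ) / x) atTop (𝓝 0) :=
      tendsto_const_nhds.div_atTop tendsto_natCast_atTop_atTop
    filter_upwards [(hR h).eventually (gt_mem_nhds hlt), eventually_ge_atTop 2,
      hJx.eventually_lt_const hδ0] with x hx1 hx2 hx3
    have hx0 : (0 : ℝ) < x := by exact_mod_cast (by omega : 0 < x)
    set L : ℕ := Nat.log 2 x with hL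
    have hLx : 2 ^ L ≤ x := Nat.pow_log_le_self 2 (by omega)
    have hcov : ({m ∈ Icc 1 x | ∃ i, n i ≤ m ∧ m % n i = b i % n i} : Finset ℕ)
        ⊆ {m ∈ Icc 1 x | Hit n b (range h) m} ∪ (Icc 1 (2 ^ J) ∪ (Ico J (L + 1)).biUnion fun j =>
          {m ∈ Ioc (2 ^ j) (2 ^ (j + 1)) |
            (∃ i, n i ≤ m ∧ m % n i = b i % n i) ∧ ¬ Hit n b (range h) m}) := by
      intro m hm
      rw [mem_filter, mem_Icc] at hm
      obtain ⟨⟨hm1, hmx⟩, hmi⟩ := hm
      rw [mem_union, mem_union, mem_filter, mem_Icc]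
      by_cases hH : Hit n b (range h) m
      · exact Or.inl ⟨⟨hm1, hmx⟩, hH⟩
      right
      rcases Nat.lt_or_ge (2 ^ J) m with hmJ | hmJ
      · right
        rw [mem_biUnion]
        have h2J : 0 < 2 ^ J := by positivity
        refine ⟨Nat.log 2 (m - 1), ?_, ?_⟩
        · rw [mem_Ico]
          constructor
          · exact Nat.le_log_of_pow_le (by norm_num) (by omega)
          · have := Nat.log_mono_right (b := 2) (show m - 1 ≤ x by omega)
            omega
        · rw [mem_filter, mem_Ioc]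
          have h3 := Nat.pow_log_le_self 2 (show m - 1 ≠ 0 by omega)
          have h4 := Nat.lt_pow_succ_log_self (show 1 < 2 by norm_num) (m - 1)
          exact ⟨⟨by omega, by omega⟩, hmi, hH⟩
      · left
        rw [mem_Icc]
        exact ⟨hm1, hmJ⟩
    have hgeo : ∀ M : ℕ, ∑ j ∈ Ico J M, (2 : ℝ) ^ j ≤ 2 ^ M := by
      intro M
      calc ∑ j ∈ Ico J M, (2 : ℝ) ^ j ≤ ∑ j ∈ range M, (2 : ℝ) ^ j := by
            refine sum_le_sum_of_subset_of_nonneg (fun j hj => ?_) fun _ _ _ => by positivity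
            rw [mem_Ico] at hj
            rw [mem_range]
            omega
        _ ≤ 2 ^ M := by
            rw [geom_sum_eq (by norm_num)]
            norm_num
    have hcard : S x ≤ (#{m ∈ Icc 1 x | Hit n b (range h) m} : ℝ) + (((2 ^ J : ℕ) : ℝ)
        + 2 ^ (L + 1) * (δ / 4)) := by
      have h2 : #{m ∈ Icc 1 x | ∃ i, n i ≤ m ∧ m % n i = b i % n i}
          ≤ #{m ∈ Icc 1 x | Hit n b (range h) m} + (2 ^ J + #((Ico J (L + 1)).biUnion fun j =>
          ({m ∈ Ioc (2 ^ j) (2 ^ (j + 1)) |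
            (∃ i, n i ≤ m ∧ m % n i = b i % n i) ∧ ¬ Hit n b (range h) m} : Finset ℕ))) := by
        refine (card_le_card hcov).trans ((card_union_le _ _).trans (Nat.add_le_add_left ?_ _))
        refine (card_union_le _ _).trans (Nat.add_le_add_right ?_ _)
        rw [Nat.card_Icc, Nat.add_sub_cancel]
      have h3 : (#((Ico J (L + 1)).biUnion fun j =>
          ({m ∈ Ioc (2 ^ j) (2 ^ (j + 1)) |
            (∃ i, n i ≤ m ∧ m % n i = b i % n i) ∧ ¬ Hit n b (range h) m} : Finset ℕ)) : ℝ)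
          ≤ 2 ^ (L + 1) * (δ / 4) := by
        have h4 : (#((Ico J (L + 1)).biUnion fun j =>
            ({m ∈ Ioc (2 ^ j) (2 ^ (j + 1)) |
            (∃ i, n i ≤ m ∧ m % n i = b i % n i) ∧ ¬ Hit n b (range h) m} : Finset ℕ)) : ℝ)
            ≤ ∑ j ∈ Ico J (L + 1), (#{m ∈ Ioc (2 ^ j) (2 ^ (j + 1)) |
            (∃ i, n i ≤ m ∧ m % n i = b i % n i) ∧ ¬ Hit n b (range h) m} : ℝ) := by
          exact_mod_cast (card_biUnion_le (s := Ico J (L + 1)) (t := fun j =>
            ({m ∈ Ioc (2 ^ j) (2 ^ (j + 1)) |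
            (∃ i, n i ≤ m ∧ m % n i = b i % n i) ∧ ¬ Hit n b (range h) m} : Finset ℕ)))
        refine h4.trans ((sum_le_sum fun j hj => hJb j (mem_Ico.mp hj).1).trans ?_)
        rw [← sum_mul]
        exact mul_le_mul_of_nonneg_right (hgeo _) (by positivity)
      have h5 : S x ≤ ((#{m ∈ Icc 1 x | Hit n b (range h) m} + (2 ^ J + #((Ico J (L + 1)).biUnion fun j =>
          ({m ∈ Ioc (2 ^ j) (2 ^ (j + 1)) |
            (∃ i, n i ≤ m ∧ m % n i = b i % n i) ∧ ¬ Hit n b (range h) m} : Finset ℕ))) : ℕ) : ℝ) := by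
        show (#{m ∈ Icc 1 x | ∃ i, n i ≤ m ∧ m % n i = b i % n i} : ℝ) ≤ _
        exact_mod_cast h2
      refine h5.trans ?_
      push_cast
      push_cast at h3
      linarith
    have hLx' : (2 : ℝ) ^ (L + 1) ≤ 2 * x := by
      rw [pow_succ]
      have : ((2 ^ L : ℕ) : ℝ) ≤ x := by exact_mod_cast hLx
      push_cast at this
      linarith
    rw [div_lt_iff₀ hx0] at hx1 hx3 ⊢
    have h6 : 2 ^ (L + 1) * (δ / 4) ≤ 2 * x * (δ / 4) :=
      mul_le_mul_of_nonneg_right hLx' (by positivity)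
    have h7 : (a - 3 * δ) * x + δ * x + 2 * x * (δ / 4) < a * x := by
      have : 0 < δ * x := by positivity
      nlinarith
    linarith

/-- **Criterion for logarithmic density.** -/
theorem logdens_crit (T : ℕ) (k : ℕ → ℕ) (z : ℕ → ℕ → ℕ) (hz : ∀ τ < T, Tendsto (z τ) atTop atTop)
    (n b : ℕ → ℕ) (hmono : StrictMono n) (hpos : ∀ i, 0 < n i) (X : Set ℕ)
    (hX : Summable (X.indicator fun i => (1 : ℝ) / n i)) (r : ℕ → ℕ)
    (hr : ∀ i, i ∉ X → r i ∣ n i)
    (hbad : Tendsto (fun J : ℕ => (∑ j ∈ range J, bad T k z n b X r j) / J) atTop (𝓝 0)) :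
    Tendsto (fun x : ℕ =>
      (∑ m ∈ Icc 1 x with (∃ i, n i ≤ m ∧ m % n i = b i % n i), (1 : ℝ) / m) / Real.log (x : ℝ)) atTop
      (𝓝 (densInf n b)) := by
  have hlog : Tendsto (fun x : ℕ => Real.log (x : ℝ)) atTop atTop :=
    Real.tendsto_log_atTop.comp tendsto_natCast_atTop_atTop
  set S : ℕ → ℝ := fun x => ∑ m ∈ Icc 1 x with (∃ i, n i ≤ m ∧ m % n i = b i % n i), (1 : ℝ) / m with hS
  have hR := fun h : ℕ => hit_range_logdens n b hpos h
  rw [tendsto_order]
  constructor
  · intro a ha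
    obtain ⟨h, hh⟩ := ((dens_tendsto (n := n) (b := b) hpos).eventually (lt_mem_nhds ha)).exists
    set P : ℕ := ∏ i ∈ range h, n i with hP
    have hPpos : 0 < P := prod_pos fun i _ => hpos i
    have hlim : Tendsto (fun x : ℕ =>
        (∑ m ∈ Icc 1 x with Hit n b (range h) m, (1 : ℝ) / m) / Real.log (x : ℝ)
          - (∑ m ∈ Icc 1 P, (1 : ℝ) / m) / Real.log (x : ℝ)) atTop (𝓝 (dens n b (range h) - 0)) :=
      (hR h).sub (tendsto_const_nhds.div_atTop hlog)
    rw [sub_zero] at hlim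
    filter_upwards [hlim.eventually (lt_mem_nhds hh), hlog.eventually_gt_atTop 0] with x hx hx0
    refine hx.trans_le ?_
    rw [← sub_div]
    refine div_le_div_of_nonneg_right ?_ hx0.le
    rw [sub_le_iff_le_add]
    calc ∑ m ∈ Icc 1 x with Hit n b (range h) m, (1 : ℝ) / m
        ≤ ∑ m ∈ {m ∈ Icc 1 x | ∃ i, n i ≤ m ∧ m % n i = b i % n i} ∪ Icc 1 P, (1 : ℝ) / m := by
          refine sum_le_sum_of_subset_of_nonneg ?_ fun m _ _ => by positivity
          intro m hm
          rw [mem_filter] at hm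
          obtain ⟨hm1, i, hi, hm2⟩ := hm
          rw [mem_union]
          by_cases hmP : m ≤ P
          · right; exact mem_Icc.mpr ⟨(mem_Icc.mp hm1).1, hmP⟩
          · left
            refine mem_filter.mpr ⟨hm1, i, ?_, hm2⟩
            have : n i ≤ P := Nat.le_of_dvd hPpos (dvd_prod_of_mem n hi)
            omega
      _ ≤ S x + ∑ m ∈ Icc 1 P, (1 : ℝ) / m := by
          rw [hS]
          refine (le_add_of_nonneg_right (sum_nonneg fun m _ => by positivity)).trans_eq
            (sum_union_inter (s₁ := {m ∈ Icc 1 x | ∃ i, n i ≤ m ∧ m % n i = b i % n i})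
              (s₂ := Icc 1 P) (f := fun m : ℕ => (1 : ℝ) / m))
  · intro a ha
    set δ : ℝ := (a - densInf n b) / 4 with hδ
    have hδ0 : 0 < δ := by rw [hδ]; linarith
    obtain ⟨h, hh⟩ := tail_block T k z hz n b hmono hpos X hX r hr (δ / 8) (by positivity)
    obtain ⟨J, hJ⟩ := eventually_atTop.mp (hh h le_rfl)
    obtain ⟨J2, hJ2⟩ := eventually_atTop.mp
      (hbad.eventually_lt_const (show (0 : ℝ) < δ / 32 by positivity))
    have hd := dens_le_inf (b := b) hpos h
    have hlt : dens n b (range h) < a - 3 * δ := by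
      have : a - 3 * δ = densInf n b + δ := by rw [hδ]; ring
      linarith
    filter_upwards [(hR h).eventually (gt_mem_nhds hlt), hlog.eventually_gt_atTop 0,
      eventually_ge_atTop (2 ^ (J2 + 1)), hlog.eventually_ge_atTop ((2 + δ + J) / δ),
      hlog.eventually_ge_atTop 1] with x hx1 hx2 hx3 hx4 hx5
    have hx0 : (0 : ℝ) < x := by
      have : 0 < 2 ^ (J2 + 1) := by positivity
      exact_mod_cast (by omega : 0 < x)
    have hxne : x ≠ 0 := by
      rintro rfl
      simp at hx0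
    set L : ℕ := Nat.log 2 x with hL
    have hLx : 2 ^ L ≤ x := Nat.pow_log_le_self 2 hxne
    have hLJ : J2 ≤ L + 1 := by
      have : J2 + 1 ≤ L := Nat.le_log_of_pow_le (by norm_num) hx3
      omega
    have hLlog : (L : ℝ) ≤ 3 / 2 * Real.log x := by
      have h2 : (L : ℝ) * Real.log 2 ≤ Real.log x := by
        rw [← Real.log_pow]
        refine Real.log_le_log (by positivity) ?_
        exact_mod_cast hLx
      have h3 : (2 / 3 : ℝ) ≤ Real.log 2 := by
        have := Real.log_two_gt_d9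
        linarith
      have h4 : (0 : ℝ) ≤ L := Nat.cast_nonneg _
      nlinarith
    set A : Finset ℕ := (range (L + 1)).biUnion fun j =>
      {m ∈ Ioc (2 ^ j) (2 ^ (j + 1)) |
        (∃ i, n i ≤ m ∧ m % n i = b i % n i) ∧ ¬ Hit n b (range h) m} with hA
    have hcov : ({m ∈ Icc 1 x | ∃ i, n i ≤ m ∧ m % n i = b i % n i} : Finset ℕ)
        ⊆ {m ∈ Icc 1 x | Hit n b (range h) m} ∪ ({1} ∪ A) := by
      intro m hm
      rw [mem_filter, mem_Icc] at hm
      obtain ⟨⟨hm1, hmx⟩, hmi⟩ := hm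
      rw [mem_union, mem_union, mem_filter, mem_Icc, mem_singleton]
      by_cases hH : Hit n b (range h) m
      · exact Or.inl ⟨⟨hm1, hmx⟩, hH⟩
      right
      rcases Nat.lt_or_ge m 2 with hm2 | hm2
      · left; omega
      · right
        rw [hA, mem_biUnion]
        refine ⟨Nat.log 2 (m - 1), ?_, ?_⟩
        · rw [mem_range]
          have := Nat.log_mono_right (b := 2) (show m - 1 ≤ x by omega)
          omega
        · rw [mem_filter, mem_Ioc]
          have h3 := Nat.pow_log_le_self 2 (show m - 1 ≠ 0 by omega)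
          have h4 := Nat.lt_pow_succ_log_self (show 1 < 2 by norm_num) (m - 1)
          exact ⟨⟨by omega, by omega⟩, hmi, hH⟩
    have hu : ∀ s t : Finset ℕ, ∑ m ∈ s ∪ t, (1 : ℝ) / m ≤ ∑ m ∈ s, (1 : ℝ) / m + ∑ m ∈ t, (1 : ℝ) / m := by
      intro s t
      have h2 := sum_union_inter (s₁ := s) (s₂ := t) (f := fun m : ℕ => (1 : ℝ) / m)
      have h3 : 0 ≤ ∑ m ∈ s ∩ t, (1 : ℝ) / (m : ℝ) := sum_nonneg fun _ _ => by positivity
      linarith
    have hAle : ∑ m ∈ A, (1 : ℝ) / m ≤ J + (L + 1) * (δ / 8) + 4 * ((L + 1) * (δ / 32)) := by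
      refine (sum_biUnion_le_sum' _ _ _ (fun _ => by positivity)).trans ?_
      have h2 : ∀ j ∈ range (L + 1), ∑ m ∈ Ioc (2 ^ j) (2 ^ (j + 1)) with
          ((∃ i, n i ≤ m ∧ m % n i = b i % n i) ∧ ¬ Hit n b (range h) m), (1 : ℝ) / m
          ≤ (if j < J then (1 : ℝ) else 0) + δ / 8 + 4 * bad T k z n b X r j := by
        intro j _
        have hbn := bad_nonneg T k z n b X r j
        split_ifs with hjJ
        · have h3 := ts_block_harm_le_one j
            (fun m => (∃ i, n i ≤ m ∧ m % n i = b i % n i) ∧ ¬ Hit n b (range h) m)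
          have h4 : (0 : ℝ) < δ / 8 := by positivity
          linarith
        · refine (ts_block_harm j _).trans ?_
          rw [div_le_iff₀ (by positivity)]
          refine (hJ j (by omega)).trans (le_of_eq ?_)
          ring
      refine (sum_le_sum h2).trans ?_
      rw [sum_add_distrib, sum_add_distrib, sum_const, card_range, nsmul_eq_mul, ← mul_sum]
      have h3 : ∑ j ∈ range (L + 1), (if j < J then (1 : ℝ) else 0) ≤ J := by
        rw [← sum_filter, sum_const, nsmul_eq_mul, mul_one]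
        have h4 : #{j ∈ range (L + 1) | j < J} ≤ J := by
          calc #{j ∈ range (L + 1) | j < J} ≤ #(range J) := by
                refine card_le_card fun j hj => ?_
                rw [mem_filter] at hj
                exact mem_range.mpr hj.2
            _ = J := card_range J
        exact_mod_cast h4
      have h5 := (hJ2 (L + 1) hLJ).le
      rw [div_le_iff₀ (by positivity)] at h5
      push_cast at h5 ⊢
      linarith
    have htot : S x ≤ (∑ m ∈ Icc 1 x with Hit n b (range h) m, (1 : ℝ) / m)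
        + (1 + ∑ m ∈ A, (1 : ℝ) / m) := by
      have h2 : S x ≤ ∑ m ∈ {m ∈ Icc 1 x | Hit n b (range h) m} ∪ ({1} ∪ A), (1 : ℝ) / m := by
        rw [hS]
        exact sum_le_sum_of_subset_of_nonneg hcov fun _ _ _ => by positivity
      have h3 := hu {m ∈ Icc 1 x | Hit n b (range h) m} ({1} ∪ A)
      have h4 := hu {1} A
      have h5 : ∑ m ∈ ({1} : Finset ℕ), (1 : ℝ) / m = 1 := by simp
      linarith
    rw [div_lt_iff₀ hx2] at hx1 ⊢
    have h6 : (L : ℝ) * (δ / 4) ≤ 3 / 2 * Real.log x * (δ / 4) :=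
      mul_le_mul_of_nonneg_right hLlog (by positivity)
    have h7 : 2 + δ + J ≤ Real.log x * δ := by
      rwa [div_le_iff₀ hδ0] at hx4
    have h8 : 0 < δ * Real.log x := by positivity
    nlinarith

end

end Pool.Agent.E25D
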