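import Mathlib
import Pool.Agent.E25D.Main
import Pool.Agent.E25D.Asym

/-!
# Sparse systems of moduli
-/

namespace Pool.Agent.E25D

open Finset Filter Topology Pool.Agent.E25 Pool.Agent.E25B
open scoped Classical

noncomputable section

/-- `t / (log t) ^ 4` is increasing for `t ≥ e ^ 4`. -/
lemma div_log_mono {s t : ℝ} (hs : Real.exp 4 ≤ s) (hst : s ≤ t) :
    s / (Real.log s) ^ 4 ≤ t / (Real.log t) ^ 4 := by
  have hs0 : 0 < s := (Real.exp_pos 4).trans_le hs
  have ht0 : 0 < t := hs0.trans_le hst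
  have hu : 4 ≤ Real.log s := (Real.le_log_iff_exp_le hs0).2 hs
  have huv : Real.log s ≤ Real.log t := Real.log_le_log hs0 hst
  set u := Real.log s with hu'
  set v := Real.log t with hv'
  have hu0 : 0 < u := by linarith
  have hv0 : 0 < v := by linarith
  have h1 : v / u ≤ Real.exp ((v - u) / 4) := by
    have h2 : v / u = (v - u) / u + 1 := by field_simp; ring
    have h3 : (v - u) / u ≤ (v - u) / 4 :=
      div_le_div_of_nonneg_left (by linarith) (by norm_num) hu
    have h4 := Real.add_one_le_exp ((v - u) / 4)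
    linarith
  have h2 : (v / u) ^ 4 ≤ t / s := by
    calc (v / u) ^ 4 ≤ (Real.exp ((v - u) / 4)) ^ 4 :=
          pow_le_pow_left₀ (by positivity) h1 4
      _ = Real.exp (v - u) := by
          rw [← Real.exp_nat_mul]
          congr 1
          push_cast
          ring
      _ = t / s := by rw [Real.exp_sub, hv', hu', Real.exp_log ht0, Real.exp_log hs0]
  rw [div_pow, div_le_div_iff₀ (by positivity) hs0] at h2
  rw [div_le_div_iff₀ (by positivity) (by positivity)]
  linarith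

/-- prime powers with exponent at least two dividing a modulus without large square divisor -/
lemma pow_le_of_sq {m p : ℕ} (hp : p.Prime)
    (hsq : ¬ ∃ c : ℕ, c ^ 2 ∣ m ∧ Real.exp ((Real.log m) ^ (1 / 2 : ℝ) / 3) < c)
    (he : 2 ≤ m.factorization p) :
    ((p ^ m.factorization p : ℕ) : ℝ) ≤ Real.exp ((Real.log m) ^ (1 / 2 : ℝ)) := by
  set e := m.factorization p with hedef
  have hpe : p ^ e ∣ m := Nat.ordProj_dvd m p
  have h2 : (p ^ (e / 2)) ^ 2 ∣ m := by
    rw [← pow_mul]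
    exact (pow_dvd_pow p (by omega)).trans hpe
  have h3 : ((p ^ (e / 2) : ℕ) : ℝ) ≤ Real.exp ((Real.log m) ^ (1 / 2 : ℝ) / 3) := by
    by_contra h4
    push Not at h4
    exact hsq ⟨_, h2, h4⟩
  have h5 : ((p ^ e : ℕ) : ℝ) ≤ ((p ^ (e / 2) : ℕ) : ℝ) ^ 3 := by
    have : p ^ e ≤ (p ^ (e / 2)) ^ 3 := by
      rw [← pow_mul]
      exact Nat.pow_le_pow_right hp.pos (by omega)
    exact_mod_cast this
  refine h5.trans ?_
  have h6 : Real.exp ((Real.log m) ^ (1 / 2 : ℝ)) = Real.exp ((Real.log m) ^ (1 / 2 : ℝ) / 3) ^ 3 := by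
    rw [← Real.exp_nat_mul]
    congr 1
    push_cast
    ring
  rw [h6]
  exact pow_le_pow_left₀ (Nat.cast_nonneg _) h3 3

/-- the level `zE 4 j` exceeds `exp (sqrt (log x))` -/
lemma sqrt_le_zE : ∀ᶠ j : ℕ in atTop, ∀ m a : ℕ, 0 < m → m ≤ 2 ^ (j + 1) →
    (a : ℝ) ≤ Real.exp ((Real.log m) ^ (1 / 2 : ℝ)) → a ≤ zE 4 j := by
  filter_upwards [TT_tendsto.eventually (pow_log_small 8 1 one_pos), TT_tendsto.eventually_ge_atTop 3,
    logTT_tendsto.eventually_gt_atTop 0] with j hj1 hj2 hj3 m a hm hmj ha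
  unfold zE
  refine Nat.le_floor (ha.trans (Real.exp_le_exp.2 ?_))
  have h1 : Real.log (m : ℝ) ≤ TT j := by
    unfold TT
    refine Real.log_le_log (by exact_mod_cast hm) ?_
    exact_mod_cast hmj
  have h2 : (Real.log (m : ℝ)) ^ (1 / 2 : ℝ) ≤ (TT j) ^ (1 / 2 : ℝ) :=
    Real.rpow_le_rpow (Real.log_nonneg (by exact_mod_cast hm)) h1 (by norm_num)
  refine h2.trans ?_
  rw [← Real.sqrt_eq_rpow, le_div_iff₀ (by positivity)]
  have hT := TT_pos j
  have h3 : (Real.log (TT j)) ^ 4 ≤ Real.sqrt (TT j) := by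
    refine Real.le_sqrt_of_sq_le ?_
    rw [← pow_mul]
    norm_num
    linarith
  calc Real.sqrt (TT j) * (Real.log (TT j)) ^ 4 ≤ Real.sqrt (TT j) * Real.sqrt (TT j) :=
        mul_le_mul_of_nonneg_left h3 (Real.sqrt_nonneg _)
    _ = TT j := Real.mul_self_sqrt hT.le

/-- few large prime factors, at block `j` -/
lemma few_V (k : ℕ) : ∀ᶠ j : ℕ in atTop, ∀ m : ℕ, 0 < m → m ≤ 2 ^ (j + 1) →
    (m.primeFactorsList.filter (fun p : ℕ =>
      decide (Real.log m / (Real.log (Real.log m)) ^ 4 < Real.log p))).length ≤ k →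
    #{p ∈ m.primeFactors | zE 4 j < p} ≤ k := by
  filter_upwards [(zE_tendsto 4).eventually_ge_atTop (⌈Real.exp (Real.exp 4)⌉₊)] with j hj1 m hm hmj hk
  refine le_trans ?_ hk
  have hsub : {p ∈ m.primeFactors | zE 4 j < p} ⊆ (m.primeFactorsList.filter (fun p : ℕ =>
      decide (Real.log m / (Real.log (Real.log m)) ^ 4 < Real.log p))).toFinset := by
    intro p hp
    rw [mem_filter] at hp
    obtain ⟨hp1, hp2⟩ := hp
    rw [List.mem_toFinset, List.mem_filter]
    refine ⟨List.mem_toFinset.1 hp1, ?_⟩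
    rw [decide_eq_true_eq]
    have hpm : p ≤ m := Nat.le_of_dvd hm (Nat.dvd_of_mem_primeFactors hp1)
    have hp3 : Real.exp (TT j / (Real.log (TT j)) ^ 4) < p := (Nat.floor_lt (Real.exp_pos _).le).1 hp2
    have hp4 : TT j / (Real.log (TT j)) ^ 4 < Real.log p :=
      (Real.lt_log_iff_exp_lt ((Real.exp_pos _).trans hp3)).2 hp3
    have hm1 : Real.log (m : ℝ) ≤ TT j := by
      unfold TT
      refine Real.log_le_log (by exact_mod_cast hm) ?_
      exact_mod_cast hmj
    have hm2 : Real.exp 4 ≤ Real.log m := by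
      rw [Real.le_log_iff_exp_le (by exact_mod_cast hm)]
      have h1 : ⌈Real.exp (Real.exp 4)⌉₊ ≤ m := by omega
      exact (Nat.le_ceil _).trans (by exact_mod_cast h1)
    exact (div_log_mono hm2 hm1).trans_lt hp4
  exact (card_le_card hsub).trans (List.toFinset_card_le _)

/-- **Sparse systems have a natural density.** -/
theorem sparse_natdens (k : ℕ) (n b : ℕ → ℕ) (hmono : StrictMono n) (hpos : ∀ i, 0 < n i)
    (X V W : Set ℕ) (hcov : ∀ i, i ∈ X ∨ i ∈ V ∨ i ∈ W)
    (hX : Summable (X.indicator fun i => (1 : ℝ) / n i))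
    (hVk : ∀ i ∈ V, ((n i).primeFactorsList.filter (fun p : ℕ =>
      decide (Real.log (n i) / (Real.log (Real.log (n i))) ^ 4 < Real.log p))).length ≤ k)
    (hV : Tendsto (fun x : ℕ => ∑ i ∈ range (x + 1) with
      (i ∈ V ∧ (x : ℝ) ^ (1 - 1 / Real.log (Real.log x)) < n i ∧ n i ≤ x), (1 : ℝ) / n i) atTop (𝓝 0))
    (hW : Tendsto (fun x : ℕ => ∑ i ∈ range (x + 1) with
      (i ∈ W ∧ (x : ℝ) ^ (1 / (Real.log (Real.log x)) ^ 3) < n i ∧ n i ≤ x), (1 : ℝ) / n i) atTop (𝓝 0)) :
    Tendsto (fun x : ℕ => (#{m ∈ Icc 1 x | ∃ i, n i ≤ m ∧ m % n i = b i % n i} : ℝ) / x) atTop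
      (𝓝 (densInf n b)) := by
  -- discards
  set A1 : Set ℕ := {i | ∃ c : ℕ, c ^ 2 ∣ n i ∧ Real.exp ((Real.log (n i)) ^ (1 / 2 : ℝ) / 3) < c} with hA1
  set A2 : Set ℕ := {i | E25B.ww (Nat.log 2 (n i)) < #(n i).primeFactors} with hA2
  obtain ⟨X', hX'def⟩ : ∃ X' : Set ℕ, X' = X ∪ A1 ∪ A2 := ⟨_, rfl⟩
  have hX' : Summable (X'.indicator fun i => (1 : ℝ) / n i) := by
    have hs1 : Summable (A1.indicator fun i => (1 : ℝ) / n i) := by
      refine ((summable_square (θ := 1 / 2) (by norm_num)).comp_injective hmono.injective).congr fun i => ?_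
      simp only [Function.comp, Set.indicator, hA1, Set.mem_ofPred_eq]
    have hs2 : Summable (A2.indicator fun i => (1 : ℝ) / n i) := by
      refine (summable_omega.comp_injective hmono.injective).congr fun i => ?_
      simp only [Function.comp, Set.indicator, hA2, Set.mem_ofPred_eq]
    have hnn : ∀ (S : Set ℕ) (i : ℕ), 0 ≤ S.indicator (fun i => (1 : ℝ) / n i) i := fun S i =>
      Set.indicator_nonneg (fun _ _ => by positivity) i
    refine Summable.of_nonneg_of_le (hnn X') ?_ ((hX.add hs1).add hs2)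
    intro i
    by_cases hi : i ∈ X'
    · rw [Set.indicator_of_mem hi]
      have e1 := hnn X i
      have e2 := hnn A1 i
      have e3 := hnn A2 i
      rw [hX'def] at hi
      rcases hi with (hi | hi) | hi
      · have := Set.indicator_of_mem hi (fun i => (1 : ℝ) / n i)
        linarith
      · have := Set.indicator_of_mem hi (fun i => (1 : ℝ) / n i)
        linarith
      · have := Set.indicator_of_mem hi (fun i => (1 : ℝ) / n i)
        linarith
    · rw [Set.indicator_of_notMem hi]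
      exact add_nonneg (add_nonneg (hnn _ _) (hnn _ _)) (hnn _ _)
  set kk : ℕ → ℕ := fun τ => if τ = 0 then k else 0 with hkk
  set zz : ℕ → ℕ → ℕ := fun τ => if τ = 0 then zE 4 else zE 3 with hzz
  have hzt : ∀ τ < 2, Tendsto (zz τ) atTop atTop := by
    intro τ _
    rw [hzz]
    dsimp only
    split_ifs
    · exact zE_tendsto 4
    · exact zE_tendsto 3
  refine natdens_crit 2 kk zz hzt n b hmono hpos X' hX' n (fun i _ => dvd_rfl) ?_
  have hpow2 : Tendsto (fun j : ℕ => 2 ^ (j + 1)) atTop atTop :=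
    (tendsto_pow_atTop_atTop_of_one_lt (by norm_num : 1 < 2)).comp (tendsto_add_atTop_nat 1)
  have hlim := (hV.comp hpow2).add (hW.comp hpow2)
  rw [add_zero] at hlim
  refine tendsto_of_tendsto_of_tendsto_of_le_of_le' tendsto_const_nhds hlim
    (Eventually.of_forall fun j => bad_nonneg _ _ _ _ _ _ _ _) ?_
  filter_upwards [far_V, far_W, sqrt_le_zE, few_V k] with j hfV hfW hsq hfew
  simp only [Function.comp]
  unfold bad
  rw [sum_image (fun i _ i' _ h => hmono.injective (Prod.ext_iff.1 h).1)]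
  have hcast : ((2 ^ (j + 1) : ℕ) : ℝ) = (2 : ℝ) ^ (j + 1) := by push_cast; ring
  have hTT : Real.log ((2 ^ (j + 1) : ℕ) : ℝ) = TT j := by rw [hcast]; rfl
  set SV : Finset ℕ := {i ∈ range (2 ^ (j + 1) + 1) | i ∈ V ∧
    ((2 ^ (j + 1) : ℕ) : ℝ) ^ (1 - 1 / Real.log (Real.log ((2 ^ (j + 1) : ℕ) : ℝ))) < n i ∧
      n i ≤ 2 ^ (j + 1)} with hSV
  set SW : Finset ℕ := {i ∈ range (2 ^ (j + 1) + 1) | i ∈ W ∧
    ((2 ^ (j + 1) : ℕ) : ℝ) ^ (1 / (Real.log (Real.log ((2 ^ (j + 1) : ℕ) : ℝ))) ^ 3) < n i ∧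
      n i ≤ 2 ^ (j + 1)} with hSW
  have hsub : ({i ∈ range (2 ^ (j + 1) + 1) | i ∉ X' ∧ n i ≤ 2 ^ (j + 1) ∧
      ∀ τ < 2, ¬ Tame (kk τ) (zz τ j) j (n i)} : Finset ℕ) ⊆ SV ∪ SW := by
    intro i hi
    rw [mem_filter] at hi
    obtain ⟨hir, hiX, hin, hit⟩ := hi
    have hiX0 : i ∉ X := fun h => hiX (by rw [hX'def]; exact Or.inl (Or.inl h))
    have hi1 : i ∉ A1 := fun h => hiX (by rw [hX'def]; exact Or.inl (Or.inr h))
    have hi2 : i ∉ A2 := fun h => hiX (by rw [hX'def]; exact Or.inr h)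
    have hom : #(n i).primeFactors ≤ wj j := by
      have h2 : #(n i).primeFactors ≤ E25B.ww (Nat.log 2 (n i)) := not_lt.1 hi2
      refine h2.trans (ww_mono ?_)
      have h3 := Nat.log_mono_right (b := 2) hin
      rwa [Nat.log_pow (by norm_num)] at h3
    have ht0 : ¬ Tame k (zE 4 j) j (n i) := by
      have := hit 0 (by norm_num)
      simpa [hkk, hzz] using this
    have ht1 : ¬ Tame 0 (zE 3 j) j (n i) := by
      have := hit 1 (by norm_num)
      simpa [hkk, hzz] using this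
    rw [mem_union]
    rcases hcov i with h | h | h
    · exact absurd h hiX0
    · left
      rw [hSV, mem_filter]
      refine ⟨hir, h, ?_, hin⟩
      by_contra hcon
      push Not at hcon
      rw [hTT, hcast] at hcon
      refine ht0 ⟨hfew (n i) (hpos i) hin (hVk i h), ?_, hom, hfV (n i) (hpos i) hcon⟩
      intro p hp he
      exact hsq (n i) _ (hpos i) hin (pow_le_of_sq hp hi1 he)
    · right
      rw [hSW, mem_filter]
      refine ⟨hir, h, ?_, hin⟩
      have hlt : zE 3 j < n i := by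
        by_contra hcon
        push Not at hcon
        refine ht1 ⟨?_, ?_, hom, hfW (n i) (hpos i) hcon⟩
        · rw [Nat.le_zero, card_eq_zero, filter_eq_empty_iff]
          intro p hp
          have := Nat.le_of_dvd (hpos i) (Nat.dvd_of_mem_primeFactors hp)
          omega
        · intro p hp _
          exact (Nat.le_of_dvd (hpos i) (Nat.ordProj_dvd (n i) p)).trans hcon
      have hlt' : Real.exp (TT j / (Real.log (TT j)) ^ 3) < n i := (Nat.floor_lt (Real.exp_pos _).le).1 hlt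
      rw [hTT, hcast, Real.rpow_def_of_pos (by positivity)]
      have e : Real.log ((2 : ℝ) ^ (j + 1)) * (1 / (Real.log (TT j)) ^ 3) = TT j / (Real.log (TT j)) ^ 3 := by
        rw [mul_one_div]; rfl
      rw [e]
      exact hlt'
  refine (sum_le_sum_of_subset_of_nonneg hsub fun _ _ _ => by positivity).trans ?_
  have h2 := sum_union_inter (s₁ := SV) (s₂ := SW) (f := fun i => (1 : ℝ) / n i)
  have h3 : 0 ≤ ∑ i ∈ SV ∩ SW, (1 : ℝ) / (n i : ℝ) := sum_nonneg fun _ _ => by positivity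
  linarith

end

end Pool.Agent.E25D
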